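import Mathlib

/-!
A Lipschitz homeomorphism of the nonseparable Hilbert space `ℓ²(ℝ)` onto itself that is
nowhere Gateaux differentiable.
-/

set_option autoImplicit false

open Filter Topology
open scoped ENNReal NNReal

namespace Pool.Agent.Results.MP_714461_an.NowhereGateaux

/-- The space `ℓ²(Γ)`, for `Γ = ℝ`. -/
abbrev H : Type := lp (fun _ : ℝ => ℝ) 2

lemma posPart_memℓp (x : H) : Memℓp (fun i : ℝ => max (x i) 0) 2 := by
  refine (lp.memℓp x).mono' fun i => ?_
  rw [Real.norm_eq_abs, Real.norm_eq_abs, abs_of_nonneg (le_max_right _ _)]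
  exact max_le (le_abs_self _) (abs_nonneg _)

/-- Coordinatewise positive part. -/
noncomputable def pos (x : H) : H := ⟨fun i : ℝ => max (x i) 0, posPart_memℓp x⟩

lemma pos_apply (x : H) (i : ℝ) : pos x i = max (x i) 0 := rfl

lemma norm_pos_sub (x y : H) : ‖pos x - pos y‖ ≤ ‖x - y‖ := by
  refine lp.norm_mono (by norm_num) fun i => ?_
  rw [lp.coeFn_sub, lp.coeFn_sub, Pi.sub_apply, Pi.sub_apply, pos_apply, pos_apply,
    Real.norm_eq_abs, Real.norm_eq_abs]
  exact abs_max_sub_max_le_abs _ _ _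

/-- The map `x ↦ (x_i + max (x_i) 0)_i`, with inverse `y ↦ (y_i - max (y_i) 0 / 2)_i`. -/
noncomputable def phi : H ≃ H where
  toFun x := x + pos x
  invFun y := y - (1 / 2 : ℝ) • pos y
  left_inv x := by
    ext i
    simp only [lp.coeFn_sub, lp.coeFn_add, lp.coeFn_smul, Pi.sub_apply, Pi.add_apply,
      Pi.smul_apply, pos_apply, smul_eq_mul]
    rcases le_total (x i) 0 with h | h
    · rw [max_eq_right h, add_zero, max_eq_right h]; ring
    · rw [max_eq_left h, max_eq_left (by linarith)]; ring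
  right_inv y := by
    ext i
    simp only [lp.coeFn_sub, lp.coeFn_add, lp.coeFn_smul, Pi.sub_apply, Pi.add_apply,
      Pi.smul_apply, pos_apply, smul_eq_mul]
    rcases le_total (y i) 0 with h | h
    · rw [max_eq_right h, mul_zero, sub_zero, max_eq_right h]; ring
    · rw [max_eq_left h, max_eq_left (by linarith)]; ring

lemma phi_apply (x : H) : phi x = x + pos x := rfl

lemma phi_symm_apply (x : H) : phi.symm x = x - (1 / 2 : ℝ) • pos x := rfl

lemma lipschitz_phi : LipschitzWith 2 phi := by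
  refine LipschitzWith.of_dist_le_mul fun x y => ?_
  rw [dist_eq_norm, dist_eq_norm, phi_apply, phi_apply]
  have h1 : x + pos x - (y + pos y) = (x - y) + (pos x - pos y) := by abel
  have h2 := norm_add_le (x - y) (pos x - pos y)
  have h3 := norm_pos_sub x y
  rw [h1]
  push_cast
  linarith

lemma lipschitz_phi_symm : LipschitzWith 2 phi.symm := by
  refine LipschitzWith.of_dist_le_mul fun x y => ?_
  rw [dist_eq_norm, dist_eq_norm, phi_symm_apply, phi_symm_apply]
  have h1 : x - (1 / 2 : ℝ) • pos x - (y - (1 / 2 : ℝ) • pos y)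
      = (x - y) - (1 / 2 : ℝ) • (pos x - pos y) := by
    rw [smul_sub]; abel
  have h2 := norm_sub_le (x - y) ((1 / 2 : ℝ) • (pos x - pos y))
  have h3 := norm_pos_sub x y
  have h4 : ‖(1 / 2 : ℝ) • (pos x - pos y)‖ = (1 / 2) * ‖pos x - pos y‖ := by
    rw [norm_smul]; norm_num
  have h5 := norm_nonneg (x - y)
  rw [h1]
  push_cast
  linarith

lemma countable_support (x : H) : (Function.support (x : ℝ → ℝ)).Countable := by
  have h := (lp.memℓp x).summable (by norm_num)
  have h2 := h.countable_support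
  refine h2.mono fun i hi => ?_
  rw [Function.mem_support] at hi ⊢
  have : 0 < ‖x i‖ := norm_pos_iff.2 hi
  positivity

lemma exists_zero_coord (x : H) : ∃ i : ℝ, x i = 0 := by
  by_contra hcon
  push Not at hcon
  have h1 : Function.support (x : ℝ → ℝ) = Set.univ := by
    ext i; simp [hcon i]
  have h2 := countable_support x
  rw [h1, Set.countable_univ_iff] at h2
  exact not_countable h2

lemma not_separable : ¬ TopologicalSpace.SeparableSpace H := by
  intro hs
  obtain ⟨s, hsc, hsd⟩ := TopologicalSpace.exists_countable_dense H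
  have h1 : (⋃ x ∈ s, Function.support (x : ℝ → ℝ)).Countable :=
    hsc.biUnion fun x _ => countable_support x
  have h2 : ∃ i : ℝ, i ∉ ⋃ x ∈ s, Function.support (x : ℝ → ℝ) := by
    by_contra hcon
    push Not at hcon
    have h3 : (⋃ x ∈ s, Function.support (x : ℝ → ℝ)) = Set.univ := Set.eq_univ_of_forall hcon
    rw [h3, Set.countable_univ_iff] at h1
    exact not_countable h1
  obtain ⟨i, hi⟩ := h2
  obtain ⟨x, hxs, hx⟩ := hsd.exists_dist_lt (lp.single 2 i (1 : ℝ)) (show (0 : ℝ) < 1 by norm_num)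
  have h4 : x i = 0 := by
    by_contra h
    exact hi (Set.mem_biUnion hxs h)
  have h5 := lp.norm_apply_le_norm (by norm_num) (lp.single 2 i (1 : ℝ) - x : H) i
  rw [lp.coeFn_sub, Pi.sub_apply, lp.single_apply_self, h4, sub_zero, norm_one,
    ← dist_eq_norm] at h5
  linarith

lemma reflexive : Function.Surjective (NormedSpace.inclusionInDoubleDual ℝ H) := by
  intro F
  set G : StrongDual ℝ H := F.comp
    ((InnerProductSpace.toDual ℝ H).toContinuousLinearEquiv : H ≃L[ℝ] StrongDual ℝ H).toContinuousLinearMap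
    with hG
  refine ⟨(InnerProductSpace.toDual ℝ H).symm G, ?_⟩
  ext f
  rw [NormedSpace.dual_def]
  obtain ⟨y, rfl⟩ := (InnerProductSpace.toDual ℝ H).surjective f
  have h1 : (InnerProductSpace.toDual ℝ H y) ((InnerProductSpace.toDual ℝ H).symm G)
      = inner ℝ y ((InnerProductSpace.toDual ℝ H).symm G) :=
    InnerProductSpace.toDual_apply_apply
  have h2 : inner ℝ ((InnerProductSpace.toDual ℝ H).symm G) y = G y :=
    InnerProductSpace.toDual_symm_apply
  rw [h1, real_inner_comm, h2, hG]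
  rfl

/-- There is a nonseparable, uniformly convex (hence superreflexive) and reflexive real Banach
space `X` and a bijection of `X` onto itself, Lipschitz with Lipschitz inverse, which is
Gateaux differentiable at no point of `X`. -/
theorem result :
    ∃ (X : Type) (_ : NormedAddCommGroup X) (_ : NormedSpace ℝ X),
      CompleteSpace X ∧ ¬ TopologicalSpace.SeparableSpace X ∧
      UniformConvexSpace X ∧
      Function.Surjective (NormedSpace.inclusionInDoubleDual ℝ X) ∧
      ∃ φ : X ≃ X, (∃ K : ℝ≥0, LipschitzWith K φ) ∧ (∃ L : ℝ≥0, LipschitzWith L φ.symm) ∧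
        ∀ x₀ : X, ¬ ∃ T : X →L[ℝ] X, ∀ h : X,
          Tendsto (fun t : ℝ => t⁻¹ • (φ (x₀ + t • h) - φ x₀)) (𝓝[≠] (0 : ℝ)) (𝓝 (T h)) := by
  refine ⟨H, inferInstance, inferInstance, inferInstance, not_separable, inferInstance,
    reflexive, phi, ⟨2, lipschitz_phi⟩, ⟨2, lipschitz_phi_symm⟩, ?_⟩
  rintro x₀ ⟨T, hT⟩
  obtain ⟨i, hi⟩ := exists_zero_coord x₀
  have h1 := hT (lp.single 2 i (1 : ℝ))
  -- evaluate at the coordinate `i`
  have hcont : Continuous fun x : H => x i := (lp.lipschitzWith_one_eval 2 i).continuous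
  have h2 : Tendsto (fun t : ℝ => t⁻¹ * (t + max t 0)) (𝓝[≠] (0 : ℝ))
      (𝓝 ((T (lp.single 2 i (1 : ℝ)) : H) i)) := by
    refine ((hcont.tendsto _).comp h1).congr fun t => ?_
    simp only [Function.comp, phi_apply, lp.coeFn_smul, lp.coeFn_sub, lp.coeFn_add,
      Pi.smul_apply, Pi.sub_apply, Pi.add_apply, pos_apply, smul_eq_mul, hi,
      lp.single_apply_self]
    simp
  have h3 : Tendsto (fun t : ℝ => t⁻¹ * (t + max t 0)) (𝓝[>] (0 : ℝ)) (𝓝 2) := by
    refine tendsto_const_nhds.congr' ?_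
    filter_upwards [self_mem_nhdsWithin] with t ht
    have ht' : (0 : ℝ) < t := ht
    rw [max_eq_left ht'.le]
    field_simp
    norm_num
  have h4 : Tendsto (fun t : ℝ => t⁻¹ * (t + max t 0)) (𝓝[<] (0 : ℝ)) (𝓝 1) := by
    refine tendsto_const_nhds.congr' ?_
    filter_upwards [self_mem_nhdsWithin] with t ht
    have ht' : t < (0 : ℝ) := ht
    rw [max_eq_right ht'.le, add_zero, inv_mul_cancel₀ ht'.ne]
  have h5 := h2.mono_left (nhdsGT_le_nhdsNE (0 : ℝ))
  have h6 := h2.mono_left (nhdsLT_le_nhdsNE (0 : ℝ))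
  have h7 := tendsto_nhds_unique h5 h3
  have h8 := tendsto_nhds_unique h6 h4
  rw [h7] at h8
  norm_num at h8

end Pool.Agent.Results.MP_714461_an.NowhereGateaux
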